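import Mathlib

/-!
# Autocharacterized open finite-index direct summands need not be T-characterized

We disprove both Q1 and Q2: with `X = ZMod 2 × (ℕ →₀ ZMod 3)` (discrete) and
`H = {0} × (ℕ →₀ ZMod 3)`, the subgroup `H` is open, of index two, autocharacterized and a
topological direct summand, but it is not T-characterized.
-/

namespace Pool.Agent.Results.MP_67c2f3_gt.DirectSummandCounterexample

open Filter Topology

/-- The group of continuous characters `X → ℝ/ℤ` of a topological abelian group `X`. -/
abbrev Character (X : Type*) [AddCommGroup X] [TopologicalSpace X] : Type _ :=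
  ContinuousAddMonoidHom X UnitAddCircle

/-- `s_v(X) = {x ∈ X : v_n(x) → 0 in ℝ/ℤ}`. -/
def s {X : Type*} [AddCommGroup X] [TopologicalSpace X] (v : ℕ → Character X) : Set X :=
  {x | Tendsto (fun n => v n x) atTop (𝓝 0)}

/-- A sequence in an abelian group is a T-sequence if it converges to `0` in some Hausdorff group
topology. -/
def IsTSequence {G : Type*} [AddCommGroup G] (v : ℕ → G) : Prop :=
  ∃ t : TopologicalSpace G, @IsTopologicalAddGroup G t _ ∧ @T2Space G t ∧
    Tendsto v atTop (@nhds G t 0)

/-- `H ∈ Ch_T(X)`: `H = s_v(X)` for some sequence of characters `v` of `X` which is a T-sequence in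
the abstract group of characters of `X`. -/
def TCharacterized {X : Type*} [AddCommGroup X] [TopologicalSpace X] (H : AddSubgroup X) : Prop :=
  ∃ v : ℕ → Character X, IsTSequence v ∧ (H : Set X) = s v

/-- `Y` is autocharacterized: `Y = s_u(Y)` for some sequence of characters `u` of `Y` that is
not eventually `0`. -/
def Autocharacterized (Y : Type*) [AddCommGroup Y] [TopologicalSpace Y] : Prop :=
  ∃ u : ℕ → Character Y, (¬ ∀ᶠ n in atTop, u n = 0) ∧ (Set.univ : Set Y) = s u

/-- `H` is a topological direct summand of `X`: for some subgroup `Z` of `X` the (additive) map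
`H × Z → X`, `(h, z) ↦ h + z` is a homeomorphism, hence an isomorphism of topological groups. -/
def IsTopologicalDirectSummand {X : Type*} [AddCommGroup X] [TopologicalSpace X]
    (H : AddSubgroup X) : Prop :=
  ∃ Z : AddSubgroup X, IsHomeomorph (fun p : H × Z => (p.1 : X) + (p.2 : X))

/-- The underlying group of the example. -/
abbrev E : Type := ZMod 2 × (ℕ →₀ ZMod 3)

/-- The subgroup of the example. -/
noncomputable def HE : AddSubgroup E := (AddMonoidHom.fst (ZMod 2) (ℕ →₀ ZMod 3)).ker

/-- The complement of the subgroup of the example. -/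
noncomputable def ZE : AddSubgroup E := (AddMonoidHom.snd (ZMod 2) (ℕ →₀ ZMod 3)).ker

theorem mem_HE (x : E) : x ∈ HE ↔ x.1 = 0 := Iff.rfl

theorem mem_ZE (x : E) : x ∈ ZE ↔ x.2 = 0 := Iff.rfl

theorem not_tCharacterized [TopologicalSpace E] : ¬ TCharacterized HE := by
  rintro ⟨v, ⟨t, htop, hT2, hv⟩, hs⟩
  -- the point `(1, 0)` is not in `H`
  have hx : ((1, 0) : E) ∉ HE := by
    rw [mem_HE]
    exact one_ne_zero
  apply hx
  change ((1, 0) : E) ∈ (HE : Set E)
  rw [hs]
  -- `3 • v n` only depends on `v n (1, 0)`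
  have key : ∀ n (x : E), (3 • v n) x = (x.1.val) • (v n) (1, 0) := by
    intro n x
    obtain ⟨e, f⟩ := x
    have h1 : (3 • v n) (e, f) = v n ((3 : ℕ) • ((e, f) : E)) := by
      rw [map_nsmul, ContinuousAddMonoidHom.nsmul_apply]
    have h2 : (3 : ℕ) • ((e, f) : E) = e.val • ((1, 0) : E) := by
      have hf : (3 : ℕ) • f = 0 := by
        ext i
        have : ∀ a : ZMod 3, (3 : ℕ) • a = 0 := by decide
        simpa using this (f i)
      have he : (3 : ℕ) • e = e.val • (1 : ZMod 2) := by
        have : ∀ a : ZMod 2, (3 : ℕ) • a = a.val • (1 : ZMod 2) := by decide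
        exact this e
      rw [Prod.smul_mk, Prod.smul_mk, hf, he, smul_zero]
    rw [h1, h2, map_nsmul]
  have htors : ∀ n, (2 : ℕ) • (v n) (1, 0) = 0 := by
    intro n
    rw [← map_nsmul]
    have : (2 : ℕ) • ((1, 0) : E) = 0 := by
      rw [Prod.smul_mk]
      have : (2 : ℕ) • (1 : ZMod 2) = 0 := by decide
      rw [this, smul_zero]
      rfl
    rw [this, map_zero]
  -- so the sequence `3 • v n` has finite range
  have hfin : (Set.range (fun n => 3 • v n)).Finite := by
    have hinj : Set.InjOn (fun χ : Character E => χ (1, 0)) (Set.range (fun n => 3 • v n)) := by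
      rintro _ ⟨n, rfl⟩ _ ⟨m, rfl⟩ h
      simp only at h
      rw [key, key] at h
      have hval : ((1, 0) : E).1.val = 1 := by decide
      rw [hval, one_smul, one_smul] at h
      ext x
      rw [key, key, h]
    refine Set.Finite.of_finite_image ?_ hinj
    refine (AddCircle.finite_torsion (p := (1 : ℝ)) (n := 2) (by norm_num)).subset ?_
    rintro _ ⟨_, ⟨n, rfl⟩, rfl⟩
    simp only [Set.mem_ofPred_eq]
    rw [key]
    have hval : ((1, 0) : E).1.val = 1 := by decide
    rw [hval, one_smul]
    exact htors n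
  -- hence it is eventually zero
  have hev : ∀ᶠ n in atTop, 3 • v n = 0 := by
    have h3 : Tendsto (fun n => 3 • v n) atTop (@nhds _ t 0) := by
      let _ := t
      have _ := htop
      have h4 := (continuous_nsmul (M := Character E) 3).tendsto 0
      have h5 : (3 : ℕ) • (0 : Character E) = 0 := nsmul_zero 3
      rw [h5] at h4
      exact h4.comp hv
    let _ := t
    have _ := hT2
    have hcl : IsClosed (Set.range (fun n => 3 • v n) \ {0}) :=
      (hfin.subset Set.sdiff_subset).isClosed
    have hmem : (Set.range (fun n => 3 • v n) \ {0})ᶜ ∈ 𝓝 (0 : Character E) :=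
      hcl.isOpen_compl.mem_nhds (by simp)
    filter_upwards [h3 hmem] with n hn
    by_contra hne
    exact hn ⟨⟨n, rfl⟩, hne⟩
  -- so `v n (1, 0)` is eventually zero
  have hev' : ∀ᶠ n in atTop, (0 : UnitAddCircle) = v n (1, 0) := by
    filter_upwards [hev] with n hn
    have h1 := key n (1, 0)
    have hval : ((1, 0) : E).1.val = 1 := by decide
    rw [hn, hval, one_smul] at h1
    exact h1
  exact (tendsto_const_nhds (x := (0 : UnitAddCircle))).congr' hev'

theorem result : ∃ (X : Type) (_ : AddCommGroup X) (_ : TopologicalSpace X)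
    (_ : IsTopologicalAddGroup X) (H : AddSubgroup X),
    IsOpen (H : Set X) ∧ H.index = 2 ∧ Autocharacterized H ∧ IsTopologicalDirectSummand H ∧
      ¬ TCharacterized H := by
  let tE : TopologicalSpace E := ⊥
  have dE : DiscreteTopology E := ⟨rfl⟩
  refine ⟨E, inferInstance, tE, inferInstance, HE, isOpen_discrete _, ?_, ?_, ?_,
    not_tCharacterized⟩
  · have h := AddSubgroup.index_ker (AddMonoidHom.fst (ZMod 2) (ℕ →₀ ZMod 3))
    unfold HE
    rw [h]
    have : (AddMonoidHom.fst (ZMod 2) (ℕ →₀ ZMod 3)).range = ⊤ :=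
      AddMonoidHom.range_eq_top.mpr (fun a => ⟨(a, 0), rfl⟩)
    rw [this]
    simp
  · let f : ℕ → (HE →+ UnitAddCircle) := fun n =>
      (ZMod.toAddCircle (N := 3)).comp ((Finsupp.applyAddHom n).comp
        ((AddMonoidHom.snd (ZMod 2) (ℕ →₀ ZMod 3)).comp HE.subtype))
    let u : ℕ → Character HE := fun n => ⟨f n, continuous_of_discreteTopology⟩
    have hu : ∀ n (h : HE), u n h = ZMod.toAddCircle ((h : E).2 n) := fun n h => rfl
    refine ⟨u, ?_, ?_⟩
    · intro hev
      obtain ⟨n, hn⟩ := hev.exists
      have h1 : u n ⟨(0, Finsupp.single n 1), (mem_HE _).2 rfl⟩ = 0 := by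
        rw [hn]; rfl
      rw [hu] at h1
      simp at h1
    · symm
      rw [Set.eq_univ_iff_forall]
      intro h
      simp only [s, Set.mem_ofPred_eq]
      have hev : ∀ᶠ n in atTop, (0 : UnitAddCircle) = u n h := by
        have hfin : ((h : E).2.support : Set ℕ).Finite := Finset.finite_toSet _
        have := hfin.eventually_cofinite_notMem
        rw [Nat.cofinite_eq_atTop] at this
        filter_upwards [this] with n hn
        rw [hu]
        simp at hn
        rw [hn, map_zero]
      exact (tendsto_const_nhds (x := (0 : UnitAddCircle))).congr' hev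
  · refine ⟨ZE, ?_⟩
    have : DiscreteTopology HE := inferInstance
    have : DiscreteTopology ZE := inferInstance
    have : DiscreteTopology (HE × ZE) := inferInstance
    refine ⟨continuous_of_discreteTopology, fun U _ => isOpen_discrete _, ?_, ?_⟩
    · rintro ⟨⟨⟨a, f⟩, ha⟩, ⟨⟨b, g⟩, hb⟩⟩ ⟨⟨⟨a', f'⟩, ha'⟩, ⟨⟨b', g'⟩, hb'⟩⟩ h
      simp only [mem_HE, mem_ZE] at ha hb ha' hb'
      subst ha hb ha' hb'
      simp only [Prod.mk_add_mk, zero_add, add_zero, Prod.mk.injEq] at h
      obtain ⟨rfl, rfl⟩ := h
      rfl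
    · rintro ⟨b, f⟩
      refine ⟨(⟨(0, f), (mem_HE _).2 rfl⟩,
        ⟨(b, 0), (mem_ZE _).2 rfl⟩), ?_⟩
      simp

end Pool.Agent.Results.MP_67c2f3_gt.DirectSummandCounterexample
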